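import Mathlib

/-!
`X × Y` is a Grothendieck space whenever `X` is Grothendieck and `Y` is countable.
-/

open Set Topology Filter

namespace Pool.Agent.Results.MP_0f8365_gt.CountableFactor

universe u v w

/-- `C_p(X)`: the continuous functions `X → ℝ` with the topology of pointwise convergence, i.e.
the subspace topology from the product `X → ℝ`. -/
abbrev Cp (X : Type u) [TopologicalSpace X] : Type u := {f : X → ℝ // Continuous f}

/-- `A` is countably compact in `Z`: every infinite subset of `A` has an accumulation point in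
`Z`. -/
def CountablyCompactIn {Z : Type w} [TopologicalSpace Z] (A : Set Z) : Prop :=
  ∀ B : Set Z, B ⊆ A → B.Infinite → ∃ z : Z, AccPt z (𝓟 B)

/-- `Z` is a g-space: if `A ⊆ Z` is countably compact in `Z` then the closure of `A` in `Z` is
compact. -/
def IsGSpace (Z : Type w) [TopologicalSpace Z] : Prop :=
  ∀ A : Set Z, CountablyCompactIn A → IsCompact (closure A)

/-- `X` is weakly Grothendieck: `C_p(X)` is a g-space. -/
def WeaklyGrothendieck (X : Type u) [TopologicalSpace X] : Prop := IsGSpace (Cp X)

/-- `X` is Grothendieck: every subspace of `C_p(X)` is a g-space. -/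
def Grothendieck (X : Type u) [TopologicalSpace X] : Prop :=
  ∀ S : Set (Cp X), IsGSpace S

lemma accPt_iff {Z : Type w} [TopologicalSpace Z] {z : Z} {B : Set Z} :
    AccPt z (𝓟 B) ↔ ∀ U ∈ 𝓝 z, ∃ b ∈ B, b ∈ U ∧ b ≠ z := by
  rw [accPt_iff_nhds]
  constructor
  · intro h U hU
    obtain ⟨y, ⟨hyU, hyB⟩, hyz⟩ := h U hU
    exact ⟨y, hyB, hyU, hyz⟩
  · intro h U hU
    obtain ⟨y, hyB, hyU, hyz⟩ := h U hU
    exact ⟨y, ⟨hyU, hyB⟩, hyz⟩

/-- In a `T₁` space every neighbourhood of an accumulation point has two distinct points. -/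
lemma accPt_two {Z : Type w} [TopologicalSpace Z] [T1Space Z] {z : Z} {B : Set Z}
    (h : AccPt z (𝓟 B)) {U : Set Z} (hU : U ∈ 𝓝 z) : ∃ b ∈ B, ∃ c ∈ B, b ∈ U ∧ c ∈ U ∧ b ≠ c := by
  rw [accPt_iff] at h
  obtain ⟨b, hbB, hbU, hbz⟩ := h U hU
  obtain ⟨c, hcB, hcU, hcz⟩ := h (U ∩ {b}ᶜ) (inter_mem hU
    ((isClosed_singleton.isOpen_compl).mem_nhds (by simpa using Ne.symm hbz)))
  exact ⟨b, hbB, c, hcB, hbU, hcU.1, fun hbc => hcU.2 (by simp [hbc])⟩

/-- the image under a continuous injective-on-`B` map of an accumulation point of `B` -/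
lemma accPt_image {Z : Type v} {W : Type w} [TopologicalSpace Z] [T1Space Z]
    [TopologicalSpace W] {z : Z} {B : Set Z} (h : AccPt z (𝓟 B)) {f : Z → W} (hf : Continuous f)
    (hinj : InjOn f B) : AccPt (f z) (𝓟 (f '' B)) := by
  rw [accPt_iff]
  intro U hU
  obtain ⟨b, hb, c, hc, hbU, hcU, hbc⟩ := accPt_two h (hf.continuousAt hU)
  by_cases h1 : f b = f z
  · refine ⟨f c, mem_image_of_mem f hc, hcU, fun h2 => hbc (hinj hb hc (h1.trans h2.symm))⟩
  · exact ⟨f b, mem_image_of_mem f hb, hbU, h1⟩

lemma CountablyCompactIn.image {Z : Type v} {W : Type w} [TopologicalSpace Z] [T1Space Z]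
    [TopologicalSpace W] {A : Set Z} (hA : CountablyCompactIn A) {f : Z → W}
    (hf : Continuous f) : CountablyCompactIn (f '' A) := by
  intro D hD hDinf
  have h1 : ∀ d : D, ∃ a ∈ A, f a = d := fun d => hD d.2
  choose b hbA hb using h1
  have hbinj : Function.Injective b := fun d d' hdd => by
    apply Subtype.ext
    rw [← hb d, ← hb d', hdd]
  have : Infinite D := hDinf.to_subtype
  obtain ⟨z, hz⟩ := hA (range b) (range_subset_iff.2 hbA) (infinite_range_of_injective hbinj)
  refine ⟨f z, ?_⟩
  have h2 : f '' range b = D := by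
    ext d
    constructor
    · rintro ⟨_, ⟨d', rfl⟩, rfl⟩
      rw [hb]; exact d'.2
    · intro hd
      exact ⟨b ⟨d, hd⟩, mem_range_self _, hb _⟩
  rw [← h2]
  refine accPt_image hz hf ?_
  rintro _ ⟨d, rfl⟩ _ ⟨d', rfl⟩ hdd
  rw [hb, hb] at hdd
  rw [Subtype.ext hdd]

lemma grothendieck_weakly {X : Type u} [TopologicalSpace X] (h : Grothendieck X) :
    WeaklyGrothendieck X := by
  intro A hA
  have h1 : CountablyCompactIn ((Homeomorph.Set.univ (Cp X)).symm '' A) :=
    hA.image (Homeomorph.Set.univ (Cp X)).symm.continuous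
  have h2 := h univ _ h1
  rw [← Homeomorph.image_closure] at h2
  exact ((Homeomorph.Set.univ (Cp X)).symm.isCompact_image).1 h2

section Phi

variable {X : Type u} {Y : Type v} [TopologicalSpace X] [Countable Y]

/-- the weights `2⁻¹, 2⁻², …` -/
noncomputable def wt (Y : Type v) [Countable Y] (y : Y) : ℝ :=
  (1 / 2 : ℝ) ^ (Classical.choose (exists_injective_nat Y) y)

lemma wt_pos (y : Y) : 0 < wt Y y := by
  unfold wt; positivity

lemma wt_summable : Summable (wt Y) :=
  (summable_geometric_of_lt_one (by norm_num) (by norm_num)).comp_injective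
    (Classical.choose_spec (exists_injective_nat Y))

/-- the distance-like function `Σ 2⁻ʸ min(|w_y - g_y|, 1)` -/
noncomputable def phi (g w : Y → Cp X) (x : X) : ℝ :=
  ∑' y, wt Y y * min |(w y).1 x - (g y).1 x| 1

lemma phi_term_bound (g w : Y → Cp X) (x : X) (y : Y) :
    ‖wt Y y * min |(w y).1 x - (g y).1 x| 1‖ ≤ wt Y y := by
  rw [norm_mul, Real.norm_of_nonneg (wt_pos y).le]
  have h1 : ‖min |(w y).1 x - (g y).1 x| 1‖ ≤ 1 := by
    rw [Real.norm_of_nonneg (le_min (abs_nonneg _) zero_le_one)]
    exact min_le_right _ _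
  calc _ ≤ wt Y y * 1 := mul_le_mul_of_nonneg_left h1 (wt_pos y).le
    _ = _ := mul_one _

lemma phi_continuous_x (g w : Y → Cp X) : Continuous (phi g w) := by
  refine continuous_tsum (fun y => ?_) wt_summable (fun y x => phi_term_bound g w x y)
  have h1 := (w y).2
  have h2 := (g y).2
  fun_prop

lemma phi_continuous_w (g : Y → Cp X) (x : X) : Continuous (fun w : Y → Cp X => phi g w x) := by
  refine continuous_tsum (fun y => ?_) wt_summable (fun y w => phi_term_bound g w x y)
  have h1 : Continuous (fun w : Y → Cp X => (w y).1 x) :=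
    (continuous_apply x).comp (continuous_subtype_val.comp (continuous_apply y))
  exact continuous_const.mul ((h1.sub continuous_const).abs.min continuous_const)

/-- `phi` as a map to `C_p(X)` -/
noncomputable def Phi (g : Y → Cp X) (w : Y → Cp X) : Cp X := ⟨phi g w, phi_continuous_x g w⟩

lemma Phi_continuous (g : Y → Cp X) : Continuous (Phi g) :=
  Continuous.subtype_mk (continuous_pi fun x => phi_continuous_w g x) _

lemma Phi_self (g : Y → Cp X) : Phi g g = ⟨fun _ => 0, continuous_const⟩ := by
  apply Subtype.ext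
  funext x
  simp [Phi, phi]

lemma Phi_eq_zero {g w : Y → Cp X} (h : Phi g w = ⟨fun _ => 0, continuous_const⟩) : w = g := by
  funext y
  apply Subtype.ext
  funext x
  have h1 : phi g w x = 0 := congrFun (congrArg Subtype.val h) x
  have hs : Summable (fun y => wt Y y * min |(w y).1 x - (g y).1 x| 1) :=
    Summable.of_norm_bounded wt_summable (fun y => phi_term_bound g w x y)
  have h0 : ∀ y, 0 ≤ wt Y y * min |(w y).1 x - (g y).1 x| 1 := fun y =>
    mul_nonneg (wt_pos y).le (le_min (abs_nonneg _) zero_le_one)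
  have h2 := (hasSum_zero_iff_of_nonneg h0).1 (by rw [← h1]; exact hs.hasSum)
  have h3 := congrFun h2 y
  have h4 : min |(w y).1 x - (g y).1 x| 1 = 0 := by
    rcases mul_eq_zero.1 h3 with h | h
    · exact absurd h (wt_pos y).ne'
    · exact h
  have h5 : |(w y).1 x - (g y).1 x| = 0 := by
    rcases min_choice |(w y).1 x - (g y).1 x| 1 with h | h
    · rw [← h, h4]
    · rw [h] at h4; norm_num at h4
  have := abs_eq_zero.1 h5
  linarith

end Phi

/-- the currying map `C_p(X × Y) → C_p(X)^Y` -/
def curryMap {X : Type u} {Y : Type v} [TopologicalSpace X] [TopologicalSpace Y]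
    (f : Cp (X × Y)) (y : Y) : Cp X :=
  ⟨fun x => f.1 (x, y), f.2.comp (by fun_prop)⟩

lemma curryMap_inducing {X : Type u} {Y : Type v} [TopologicalSpace X] [TopologicalSpace Y] :
    IsInducing (curryMap : Cp (X × Y) → Y → Cp X) := by
  have hc : Continuous (curryMap : Cp (X × Y) → Y → Cp X) := by
    refine continuous_pi fun y => Continuous.subtype_mk (continuous_pi fun x => ?_) _
    exact (continuous_apply (x, y)).comp continuous_subtype_val
  have hd : Continuous (fun (g : Y → Cp X) (p : X × Y) => (g p.2).1 p.1) :=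
    continuous_pi fun p =>
      (continuous_apply p.1).comp (continuous_subtype_val.comp (continuous_apply p.2))
  exact IsInducing.of_comp hc hd IsInducing.subtypeVal

/-- **Main theorem.** If `X` is a Grothendieck space and `Y` is countable, then `X × Y` is a
Grothendieck space. -/
theorem result (X : Type u) (Y : Type v) [TopologicalSpace X] [TopologicalSpace Y]
    [T35Space X] [T35Space Y] (hX : Grothendieck X) (hY : Countable Y) :
    Grothendieck (X × Y) := by
  intro S B hB
  have hweak := grothendieck_weakly hX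
  -- the embedding of `S` in the power
  let j : S → (Y → Cp X) := fun s => curryMap s.1
  have hj : IsInducing j := curryMap_inducing.comp IsInducing.subtypeVal
  have hjc : Continuous j := hj.continuous
  -- the closure of the image is compact
  have hK : ∀ y, IsCompact (closure ((fun s : S => j s y) '' B)) := fun y =>
    hweak _ (hB.image ((continuous_apply y).comp hjc))
  have hP : IsCompact (Set.pi univ fun y => closure ((fun s : S => j s y) '' B)) :=
    isCompact_univ_pi hK
  have hsub : closure (j '' B) ⊆ Set.pi univ fun y => closure ((fun s : S => j s y) '' B) := by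
    refine closure_minimal ?_ hP.isClosed
    rintro _ ⟨s, hs, rfl⟩ y -
    exact subset_closure ⟨s, hs, rfl⟩
  have hcomp : IsCompact (closure (j '' B)) := hP.of_isClosed_subset isClosed_closure hsub
  -- the closure of the image lies in the image of `S`
  have hrange : closure (j '' B) ⊆ range j := by
    intro g hg
    by_contra hgr
    let z : Cp X := ⟨fun _ => 0, continuous_const⟩
    have hne : ∀ s : S, Phi g (j s) ∈ ({z}ᶜ : Set (Cp X)) := fun s hs =>
      hgr ⟨s, Phi_eq_zero hs⟩
    let q : S → ({z}ᶜ : Set (Cp X)) := fun s => ⟨Phi g (j s), hne s⟩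
    have hq : Continuous q := Continuous.subtype_mk ((Phi_continuous g).comp hjc) _
    have hcc : CountablyCompactIn (q '' B) := hB.image hq
    have h1 : IsCompact (closure (q '' B)) := hX _ _ hcc
    have h2 : IsClosed ((Subtype.val : ({z}ᶜ : Set (Cp X)) → Cp X) '' closure (q '' B)) :=
      (h1.image continuous_subtype_val).isClosed
    have h3 : Phi g '' closure (j '' B) ⊆ Subtype.val '' closure (q '' B) := by
      refine (image_closure_subset_closure_image (Phi_continuous g)).trans
        (closure_minimal ?_ h2)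
      rintro _ ⟨_, ⟨s, hs, rfl⟩, rfl⟩
      exact ⟨q s, subset_closure (mem_image_of_mem q hs), rfl⟩
    obtain ⟨t, -, ht⟩ := h3 (mem_image_of_mem _ hg)
    rw [Phi_self] at ht
    exact t.2 ht
  rw [hj.closure_eq_preimage_closure_image B]
  exact (hj.isCompact_preimage_iff hrange).2 hcomp

end Pool.Agent.Results.MP_0f8365_gt.CountableFactor
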